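import Pool.Agent.helper24.SK.SpecE

/-! # Row EWD of the sk project: the wide triangle, characters different from the principal one -/

set_option autoImplicit false

namespace Pool.Agent.SK

open Finset ArithmeticFunction MeasureTheory
open Pool.Agent.CH (nit DPb Win Tset ph rgh)
open Pool.Agent.EC (tri vN fN XN TL AdT yN UN edg)
open Pool.Agent.helper85.BVP (tau)
open GD (ks)

open Classical in
theorem EWD_npr (y : ℝ) (u : ℕ) (hu : 1 ≤ u) (hy : 0 ≤ y) :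
    ∑ n ∈ (Ioc 0 u).filter (fun n => ¬ rgh y n), (vonMangoldt n : ℝ) ≤ y * Real.log u := by
  set P : Finset ℕ := (Icc 1 ⌊y⌋₊).filter Nat.Prime with hP
  set m : ℕ := ∏ p ∈ P, p ^ (Nat.log p u) with hm
  have hm0 : m ≠ 0 := by
    rw [hm]
    refine Finset.prod_ne_zero_iff.2 fun p hp => ?_
    exact pow_ne_zero _ (Finset.mem_filter.1 hp).2.ne_zero
  have hsum : ∑ n ∈ m.divisors, (vonMangoldt n : ℝ) = Real.log m := vonMangoldt_sum
  have hle : ∑ n ∈ (Ioc 0 u).filter (fun n => ¬ rgh y n), (vonMangoldt n : ℝ) ≤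
      ∑ n ∈ m.divisors, (vonMangoldt n : ℝ) := by
    rw [← Finset.sum_filter_ne_zero]
    refine Finset.sum_le_sum_of_subset_of_nonneg ?_ fun _ _ _ => vonMangoldt_nonneg
    intro n hn
    rw [Finset.mem_filter, Finset.mem_filter, Finset.mem_Ioc] at hn
    obtain ⟨⟨⟨hn0, hnu⟩, hnr⟩, hL⟩ := hn
    rw [vonMangoldt_ne_zero_iff] at hL
    obtain ⟨p, k, hp, hk, rfl⟩ := (isPrimePow_nat_iff _).1 hL
    have h1 : ∃ w : ℕ, w.Prime ∧ w ∣ p ^ k ∧ (w : ℝ) ≤ y := by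
      by_contra hcon
      apply hnr
      refine ⟨hn0.ne', fun w hw hwd => ?_⟩
      by_contra hlt
      exact hcon ⟨w, hw, hwd, not_lt.1 hlt⟩
    obtain ⟨w, hw, hwd, hwy⟩ := h1
    have hwp : w = p := (Nat.prime_dvd_prime_iff_eq hw hp).1 (hw.dvd_of_dvd_pow hwd)
    rw [hwp] at hwy
    rw [Nat.mem_divisors]
    refine ⟨?_, hm0⟩
    have hpP : p ∈ P := by
      rw [hP, Finset.mem_filter, Finset.mem_Icc]
      exact ⟨⟨hp.one_lt.le, Nat.le_floor hwy⟩, hp⟩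
    refine dvd_trans (pow_dvd_pow p (Nat.le_log_of_pow_le hp.one_lt hnu)) ?_
    exact Finset.dvd_prod_of_mem (fun p => p ^ (Nat.log p u)) hpP
  have hlog : Real.log m ≤ y * Real.log u := by
    have hlu : 0 ≤ Real.log (u : ℝ) := Real.log_nonneg (by exact_mod_cast hu)
    rw [hm, Nat.cast_prod, Real.log_prod (fun p hp => by
      have := (Finset.mem_filter.1 hp).2.ne_zero
      exact_mod_cast pow_ne_zero _ this)]
    calc ∑ p ∈ P, Real.log ((p ^ (Nat.log p u) : ℕ) : ℝ) ≤ ∑ p ∈ P, Real.log (u : ℝ) := by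
          refine Finset.sum_le_sum fun p hp => ?_
          have hp0 := (Finset.mem_filter.1 hp).2.pos
          refine Real.log_le_log (by exact_mod_cast pow_pos hp0 _) ?_
          exact_mod_cast Nat.pow_log_le_self p (by omega)
      _ = (P.card : ℝ) * Real.log u := by rw [Finset.sum_const, nsmul_eq_mul]
      _ ≤ y * Real.log u := by
          refine mul_le_mul_of_nonneg_right ?_ hlu
          have h1 : P.card ≤ ⌊y⌋₊ := by
            calc P.card ≤ (Icc 1 ⌊y⌋₊).card := Finset.card_filter_le _ _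
              _ = ⌊y⌋₊ := by simp
          calc (P.card : ℝ) ≤ ((⌊y⌋₊ : ℕ) : ℝ) := by exact_mod_cast h1
            _ ≤ y := Nat.floor_le hy
  rw [hsum] at hle
  exact hle.trans hlog

theorem EWD_clp01 (t : ℝ) : 0 ≤ clp t ∧ clp t ≤ 1 := by
  unfold clp
  exact ⟨le_max_left _ _, max_le (by norm_num) (min_le_left _ _)⟩

theorem EWD_clpm {s t : ℝ} (h : s ≤ t) : clp s ≤ clp t := by
  unfold clp
  exact max_le_max le_rfl (min_le_min le_rfl h)

theorem EWD_ysum (h3 : ABL_stmt) (h4 : TRB_stmt) (v δ : ℝ) (hδ : 0 < δ) (c : ℕ → ℂ) (U : ℕ) (K : ℝ)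
    (hK : ∀ u ≤ U, ‖∑ n ∈ Ioc 0 u, c n‖ ≤ K) (x z : ℕ) (hx : 0 < x) (hz : 0 < z) :
    ‖∑ y ∈ Ioc 0 U, c y * ((tr0 v δ (Real.log ((x * y * z : ℕ) : ℝ)) : ℝ) : ℂ)‖ ≤ 4 * K := by
  have hK0 : 0 ≤ K := (norm_nonneg _).trans (hK 0 (Nat.zero_le _))
  have key : ∀ e : ℝ, ‖∑ y ∈ Ioc 0 U, c y *
      ((clp ((Real.log ((x * y * z : ℕ) : ℝ) - v) / δ + e) : ℝ) : ℂ)‖ ≤ 2 * K := by
    intro e
    have h := h3 c (fun y => clp ((Real.log ((x * y * z : ℕ) : ℝ) - v) / δ + e)) 0 U K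
      (fun n => (EWD_clp01 _).1) (by
        intro m n hm hmn _
        apply EWD_clpm
        have h1 : Real.log ((x * m * z : ℕ) : ℝ) ≤ Real.log ((x * n * z : ℕ) : ℝ) := by
          refine Real.log_le_log (by exact_mod_cast Nat.mul_pos (Nat.mul_pos hx hm) hz) ?_
          exact_mod_cast Nat.mul_le_mul (Nat.mul_le_mul le_rfl hmn) le_rfl
        have h2 : (Real.log ((x * m * z : ℕ) : ℝ) - v) / δ ≤ (Real.log ((x * n * z : ℕ) : ℝ) - v) / δ :=
          div_le_div_of_nonneg_right (by linarith) hδ.le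
        linarith) hK
    refine h.trans ?_
    have h5 := (EWD_clp01 ((Real.log ((x * U * z : ℕ) : ℝ) - v) / δ + e)).2
    calc 2 * K * clp ((Real.log ((x * U * z : ℕ) : ℝ) - v) / δ + e) ≤ 2 * K * 1 :=
          mul_le_mul_of_nonneg_left h5 (by linarith)
      _ = 2 * K := mul_one _
  have hid : ∑ y ∈ Ioc 0 U, c y * ((tr0 v δ (Real.log ((x * y * z : ℕ) : ℝ)) : ℝ) : ℂ) =
      ∑ y ∈ Ioc 0 U, c y * ((clp ((Real.log ((x * y * z : ℕ) : ℝ) - v) / δ + 1) : ℝ) : ℂ) -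
      ∑ y ∈ Ioc 0 U, c y * ((clp ((Real.log ((x * y * z : ℕ) : ℝ) - v) / δ + 0) : ℝ) : ℂ) := by
    rw [← Finset.sum_sub_distrib]
    refine Finset.sum_congr rfl fun y _ => ?_
    rw [(h4 v δ hδ).2.2.2.2.2.1, add_zero]
    push_cast
    ring
  rw [hid]
  calc _ ≤ _ := norm_sub_le _ _
    _ ≤ 2 * K + 2 * K := add_le_add (key 1) (key 0)
    _ = 4 * K := by ring

theorem EWD (h1 : ETR_stmt) (h2 : PSR_stmt) (h3 : ABL_stmt) (h4 : TRB_stmt) : EWD_stmt := by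
  intro A Bq C
  obtain ⟨N₁, hPSR⟩ := h2 (A + 3 * C + 1) Bq 1 one_pos
  have hlogT : Filter.Tendsto (fun N : ℕ => Real.log (N : ℝ)) Filter.atTop Filter.atTop :=
    Real.tendsto_log_atTop.comp tendsto_natCast_atTop_atTop
  have e1 : ∀ᶠ N : ℕ in Filter.atTop, (2 : ℝ) ^ 20 ≤ Real.log N := hlogT.eventually_ge_atTop _
  have e2 : ∀ᶠ N : ℕ in Filter.atTop, 32 * Real.log (N : ℝ) ^ (A + 2 * C + 1) ≤ √(N : ℝ) := by
    have h := (isLittleO_log_rpow_rpow_atTop ((A + 2 * C + 1 : ℕ) : ℝ) (show (0 : ℝ) < 1 / 2 by norm_num)).bound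
      (show (0 : ℝ) < 1 / 32 by norm_num)
    have h' := tendsto_natCast_atTop_atTop (R := ℝ) |>.eventually h
    filter_upwards [h', e1] with N hN hL
    have hL0 : (0 : ℝ) ≤ Real.log N := by linarith [show (0 : ℝ) ≤ 2 ^ 20 by positivity]
    rw [Real.rpow_natCast, Real.norm_of_nonneg (pow_nonneg hL0 _),
      Real.norm_of_nonneg (Real.rpow_nonneg (Nat.cast_nonneg _) _), ← Real.sqrt_eq_rpow] at hN
    linarith
  obtain ⟨N₂, hN₂⟩ := Filter.eventually_atTop.1 (e1.and e2)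
  refine ⟨max N₁ (max N₂ 64), fun N hN v δ hδ hv q hq hqL χ hχ => ?_⟩
  have hNN1 : N₁ ≤ N := (le_max_left _ _).trans hN
  have hNN2 : N₂ ≤ N := ((le_max_left _ _).trans (le_max_right _ _)).trans hN
  have hN64 : 64 ≤ N := ((le_max_right _ _).trans (le_max_right _ _)).trans hN
  obtain ⟨hL, hbig⟩ := hN₂ N hNN2
  set L : ℝ := Real.log (N : ℝ) with hLdef
  have hL20 : (2 : ℝ) ^ 20 ≤ L := hL
  have hL8 : (8 : ℝ) ≤ L := le_trans (by norm_num) hL20
  have hL1 : (1 : ℝ) ≤ L := by linarith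
  have hL0 : (0 : ℝ) < L := by linarith
  have hN0 : (0 : ℝ) < N := by exact_mod_cast (show 0 < N by omega)
  have hN64r : (64 : ℝ) ≤ N := by exact_mod_cast hN64
  have hs : √(N : ℝ) * √(N : ℝ) = N := Real.mul_self_sqrt hN0.le
  have hs0 : 0 < √(N : ℝ) := Real.sqrt_pos.2 hN0
  have hs1 : 1 ≤ √(N : ℝ) := by
    rw [Real.one_le_sqrt]
    linarith
  have hsN : √(N : ℝ) ≤ N := by nlinarith
  -- size of the roughness level
  have hy : yN N ≤ √(N : ℝ) := by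
    have h5 : L ^ (19 / 20 : ℝ) ≤ L / 2 := by
      have h6 : (2 : ℝ) ≤ L ^ (1 / 20 : ℝ) := by
        have h7 : ((2 : ℝ) ^ 20) ^ (1 / 20 : ℝ) ≤ L ^ (1 / 20 : ℝ) :=
          Real.rpow_le_rpow (by positivity) hL20 (by norm_num)
        have h8 : ((2 : ℝ) ^ 20) ^ (1 / 20 : ℝ) = 2 := by
          rw [← Real.rpow_natCast, ← Real.rpow_mul (by norm_num)]
          norm_num
        rwa [h8] at h7
      have h9 : L ^ (19 / 20 : ℝ) * L ^ (1 / 20 : ℝ) = L := by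
        rw [← Real.rpow_add hL0]
        norm_num
      have h10 : 0 < L ^ (19 / 20 : ℝ) := Real.rpow_pos_of_pos hL0 _
      nlinarith
    calc yN N = Real.exp (L ^ (19 / 20 : ℝ)) := rfl
      _ ≤ Real.exp (L / 2) := Real.exp_le_exp.2 h5
      _ = √(N : ℝ) := by
        rw [hLdef, ← Real.exp_log hs0, Real.log_sqrt hN0.le]
  have hy0 : 0 ≤ yN N := (Real.exp_pos _).le
  -- the cut
  set U' : ℝ := (N : ℝ) * L ^ C with hU'
  have hLC1 : 1 ≤ L ^ C := one_le_pow₀ hL1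
  have hLCs : L ^ C ≤ √(N : ℝ) := by
    have h5 : L ^ C ≤ L ^ (A + 2 * C + 1) := pow_le_pow_right₀ hL1 (by omega)
    have h6 : 0 < L ^ (A + 2 * C + 1) := pow_pos hL0 _
    linarith
  have hU'0 : 0 < U' := by positivity
  have hU'1 : (N : ℝ) ≤ U' := by
    rw [hU']
    nlinarith
  have hU'2 : U' ≤ (N : ℝ) ^ 2 := by
    rw [hU']
    nlinarith [mul_le_mul_of_nonneg_left (hLCs.trans hsN) hN0.le]
  have hU'3 : U' ≤ 64 * (N : ℝ) ^ 3 := by
    nlinarith [pow_pos hN0 2, pow_pos hN0 3]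
  have hUU' : ((UN C N : ℕ) : ℝ) ≤ U' := Nat.floor_le hU'0.le
  -- sums of the von Mangoldt function over the rough numbers
  set K : ℝ := U' / L ^ (A + 3 * C + 1) + yN N * (2 * L) with hKdef
  have hK0 : 0 ≤ K := by positivity
  have hK : ∀ u ≤ UN C N, ‖∑ n ∈ Ioc 0 u, rf C N (fun n => (vonMangoldt n : ℂ)) n * χ n‖ ≤ K := by
    classical
    intro u hu
    rcases Nat.eq_zero_or_pos u with rfl | hu0
    · simpa using hK0
    have huU' : (u : ℝ) ≤ U' := le_trans (by exact_mod_cast hu) hUU'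
    have h5 := (hPSR N hNN1 U' (by rw [Real.rpow_one]; exact hU'1) hU'3 u huU').1 q hq hqL χ hχ
    have h6 : ∑ n ∈ Ioc 0 u, rf C N (fun n => (vonMangoldt n : ℂ)) n * χ n =
        ∑ n ∈ Ioc 0 u, (vonMangoldt n : ℂ) * χ n -
        ∑ n ∈ (Ioc 0 u).filter (fun n => ¬ rgh (yN N) n), (vonMangoldt n : ℂ) * χ n := by
      rw [eq_sub_iff_add_eq, Finset.sum_filter, ← Finset.sum_add_distrib]
      refine Finset.sum_congr rfl fun n hn => ?_
      have hnu : n ≤ UN C N := (Finset.mem_Ioc.1 hn).2.trans hu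
      unfold rf
      by_cases hr : rgh (yN N) n
      · rw [if_pos ⟨hr, hnu⟩, if_neg (not_not.2 hr), add_zero]
      · rw [if_neg (fun h => hr h.1), if_pos hr, zero_mul, zero_add]
    have h7 : ‖∑ n ∈ (Ioc 0 u).filter (fun n => ¬ rgh (yN N) n), (vonMangoldt n : ℂ) * χ n‖ ≤ yN N * (2 * L) := by
      calc _ ≤ ∑ n ∈ (Ioc 0 u).filter (fun n => ¬ rgh (yN N) n), (vonMangoldt n : ℝ) := by
            refine (norm_sum_le _ _).trans (Finset.sum_le_sum fun n _ => ?_)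
            rw [norm_mul, Complex.norm_real, Real.norm_of_nonneg vonMangoldt_nonneg]
            calc vonMangoldt n * ‖χ n‖ ≤ vonMangoldt n * 1 :=
                  mul_le_mul_of_nonneg_left (χ.norm_le_one _) vonMangoldt_nonneg
              _ = vonMangoldt n := mul_one _
        _ ≤ yN N * Real.log u := EWD_npr _ _ hu0 hy0
        _ ≤ yN N * (2 * L) := by
            refine mul_le_mul_of_nonneg_left ?_ hy0
            calc Real.log u ≤ Real.log ((N : ℝ) ^ 2) :=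
                  Real.log_le_log (by exact_mod_cast hu0) (huU'.trans hU'2)
              _ = 2 * L := by rw [Real.log_pow, hLdef]; norm_num
    rw [h6]
    calc _ ≤ _ := norm_sub_le _ _
      _ ≤ K := add_le_add h5 h7
  -- the triple sum
  have hG : ∀ j, 64 * N ^ 3 < j → χ j * ((tr0 v δ (Real.log j) : ℝ) : ℂ) = 0 := by
    intro j hj
    have h5 : tr0 v δ (Real.log j) = 0 := by
      refine (h4 v δ hδ).2.1 _ ?_
      have hj' : (64 : ℝ) * (N : ℝ) ^ 3 ≤ j := by exact_mod_cast hj.le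
      have h6 : Real.log (64 * (N : ℝ) ^ 3) ≤ Real.log j := Real.log_le_log (by positivity) hj'
      rw [Real.log_mul (by norm_num) (by positivity), Real.log_pow] at h6
      have h7 : (2 : ℝ) ≤ Real.log 64 := by
        rw [show (64 : ℝ) = 2 ^ 6 by norm_num, Real.log_pow]
        have := Real.log_two_gt_d9
        push_cast
        linarith
      have h8 : ((3 : ℕ) : ℝ) * Real.log (N : ℝ) = 3 * L := by rw [hLdef]; norm_num
      rw [h8] at h6
      have h9 : δ ≤ Real.log j - v := by linarith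
      exact h9.trans (le_abs_self _)
    rw [h5]
    simp
  have hE := h1 C N (fun j => χ j * ((tr0 v δ (Real.log j) : ℝ) : ℂ)) hG
  have hlhs : ∑ j ∈ Ioc 0 (64 * N ^ 3), ((edg C N j : ℝ) : ℂ) * χ j * ((tr0 v δ (Real.log j) : ℝ) : ℂ) =
      ∑ j ∈ Ioc 0 (64 * N ^ 3), ((edg C N j : ℝ) : ℂ) * (χ j * ((tr0 v δ (Real.log j) : ℝ) : ℂ)) :=
    Finset.sum_congr rfl fun j _ => mul_assoc _ _ _
  rw [hlhs, hE, norm_neg]
  set U : ℕ := UN C N with hUdef
  have hre : ∑ x ∈ Ioc 0 U, ∑ y ∈ Ioc 0 U, ∑ z ∈ Ioc 0 U,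
      rf C N (fun n => ((moebius n : ℤ) : ℂ)) x * rf C N (fun n => (vonMangoldt n : ℂ)) y * rf C N (fun _ => 1) z *
        (χ ((x * y * z : ℕ) : ZMod q) * ((tr0 v δ (Real.log ((x * y * z : ℕ) : ℝ)) : ℝ) : ℂ)) =
      ∑ x ∈ Ioc 0 U, ∑ z ∈ Ioc 0 U,
      (rf C N (fun n => ((moebius n : ℤ) : ℂ)) x * χ x * (rf C N (fun _ => 1) z * χ z)) *
        ∑ y ∈ Ioc 0 U, (rf C N (fun n => (vonMangoldt n : ℂ)) y * χ y) *
          ((tr0 v δ (Real.log ((x * y * z : ℕ) : ℝ)) : ℝ) : ℂ) := by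
    refine Finset.sum_congr rfl fun x _ => ?_
    rw [Finset.sum_comm]
    refine Finset.sum_congr rfl fun z _ => ?_
    rw [Finset.mul_sum]
    refine Finset.sum_congr rfl fun y _ => ?_
    have h5 : χ ((x * y * z : ℕ) : ZMod q) = χ x * χ y * χ z := by
      rw [Nat.cast_mul, Nat.cast_mul, map_mul, map_mul]
    rw [h5]
    ring
  rw [hre]
  have hrf : ∀ (f : ℕ → ℂ) (x : ℕ), ‖f x‖ ≤ 1 → ‖rf C N f x * χ x‖ ≤ 1 := by
    intro f x hf
    rw [norm_mul]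
    have h5 : ‖rf C N f x‖ ≤ 1 := by
      unfold rf
      split_ifs
      · exact hf
      · simp
    calc ‖rf C N f x‖ * ‖χ x‖ ≤ 1 * 1 :=
          mul_le_mul h5 (χ.norm_le_one _) (norm_nonneg _) zero_le_one
      _ = 1 := one_mul 1
  have hterm : ∀ x ∈ Ioc 0 U, ∀ z ∈ Ioc 0 U,
      ‖(rf C N (fun n => ((moebius n : ℤ) : ℂ)) x * χ x * (rf C N (fun _ => 1) z * χ z)) *
        ∑ y ∈ Ioc 0 U, (rf C N (fun n => (vonMangoldt n : ℂ)) y * χ y) *
          ((tr0 v δ (Real.log ((x * y * z : ℕ) : ℝ)) : ℝ) : ℂ)‖ ≤ 4 * K := by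
    intro x hx z hz
    have hmu : ‖((moebius x : ℤ) : ℂ)‖ ≤ 1 := by
      have h5 : |moebius x| ≤ 1 := abs_moebius_le_one
      rw [Complex.norm_intCast]
      exact_mod_cast h5
    have h5 := hrf (fun n => ((moebius n : ℤ) : ℂ)) x hmu
    have h6 := hrf (fun _ => 1) z (by simp)
    have h7 := EWD_ysum h3 h4 v δ hδ (fun y => rf C N (fun n => (vonMangoldt n : ℂ)) y * χ y) U K hK x z
      (Finset.mem_Ioc.1 hx).1 (Finset.mem_Ioc.1 hz).1
    rw [norm_mul, norm_mul]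
    calc _ ≤ 1 * 1 * (4 * K) := mul_le_mul (mul_le_mul h5 h6 (norm_nonneg _) zero_le_one) h7
          (norm_nonneg _) (by norm_num)
      _ = 4 * K := by ring
  have htot : ‖∑ x ∈ Ioc 0 U, ∑ z ∈ Ioc 0 U,
      (rf C N (fun n => ((moebius n : ℤ) : ℂ)) x * χ x * (rf C N (fun _ => 1) z * χ z)) *
        ∑ y ∈ Ioc 0 U, (rf C N (fun n => (vonMangoldt n : ℂ)) y * χ y) *
          ((tr0 v δ (Real.log ((x * y * z : ℕ) : ℝ)) : ℝ) : ℂ)‖ ≤ (U : ℝ) * ((U : ℝ) * (4 * K)) := by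
    refine (norm_sum_le _ _).trans ?_
    calc _ ≤ ∑ x ∈ Ioc 0 U, (U : ℝ) * (4 * K) := by
          refine Finset.sum_le_sum fun x hx => ?_
          refine (norm_sum_le _ _).trans ?_
          calc _ ≤ ∑ z ∈ Ioc 0 U, 4 * K := Finset.sum_le_sum fun z hz => hterm x hx z hz
            _ = (U : ℝ) * (4 * K) := by
              rw [Finset.sum_const, nsmul_eq_mul, Nat.card_Ioc, Nat.sub_zero]
      _ = (U : ℝ) * ((U : ℝ) * (4 * K)) := by
          rw [Finset.sum_const, nsmul_eq_mul, Nat.card_Ioc, Nat.sub_zero]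
  refine htot.trans ?_
  -- numerical end
  have hU0 : (0 : ℝ) ≤ (U : ℝ) := Nat.cast_nonneg _
  have h5 : (U : ℝ) * ((U : ℝ) * (4 * K)) ≤ U' * (U' * (4 * K)) :=
    mul_le_mul hUU' (mul_le_mul_of_nonneg_right hUU' (by linarith)) (by positivity) hU'0.le
  refine h5.trans ?_
  have hLA : 0 < L ^ A := pow_pos hL0 _
  have h6 : U' * (U' * (4 * (U' / L ^ (A + 3 * C + 1)))) ≤ (N : ℝ) ^ 3 / L ^ A / 2 := by
    have h7 : U' * (U' * (4 * (U' / L ^ (A + 3 * C + 1)))) = 4 * (N : ℝ) ^ 3 / L ^ A / L := by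
      rw [hU', pow_add, pow_add, pow_mul']
      field_simp
    rw [h7, div_le_iff₀ hL0]
    have h8 : 0 < (N : ℝ) ^ 3 / L ^ A := by positivity
    have h9 : 4 * (N : ℝ) ^ 3 / L ^ A = 4 * ((N : ℝ) ^ 3 / L ^ A) := by ring
    rw [h9]
    nlinarith
  have h7 : U' * (U' * (4 * (yN N * (2 * L)))) ≤ (N : ℝ) ^ 3 / L ^ A / 2 := by
    have h8 : U' * (U' * (4 * (yN N * (2 * L)))) ≤ U' * (U' * (4 * (√(N : ℝ) * (2 * L)))) := by
      refine mul_le_mul_of_nonneg_left (mul_le_mul_of_nonneg_left ?_ hU'0.le) hU'0.le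
      nlinarith [mul_le_mul_of_nonneg_right hy (show 0 ≤ 2 * L by linarith)]
    refine h8.trans ?_
    rw [div_div, le_div_iff₀ (by positivity)]
    have h9 : U' * (U' * (4 * (√(N : ℝ) * (2 * L)))) * (L ^ A * 2) =
        (N : ℝ) ^ 2 * √(N : ℝ) * (16 * L ^ (A + 2 * C + 1)) := by
      rw [hU', pow_add, pow_add, pow_mul']
      ring
    rw [h9]
    have h10 : 0 < L ^ (A + 2 * C + 1) := pow_pos hL0 _
    calc (N : ℝ) ^ 2 * √(N : ℝ) * (16 * L ^ (A + 2 * C + 1)) ≤ (N : ℝ) ^ 2 * √(N : ℝ) * √(N : ℝ) :=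
          mul_le_mul_of_nonneg_left (by linarith) (by positivity)
      _ = (N : ℝ) ^ 3 := by rw [mul_assoc, hs]; ring
  calc U' * (U' * (4 * K)) = U' * (U' * (4 * (U' / L ^ (A + 3 * C + 1)))) +
        U' * (U' * (4 * (yN N * (2 * L)))) := by rw [hKdef]; ring
    _ ≤ (N : ℝ) ^ 3 / L ^ A / 2 + (N : ℝ) ^ 3 / L ^ A / 2 := add_le_add h6 h7
    _ = (N : ℝ) ^ 3 / L ^ A := by ring

end Pool.Agent.SK
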